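import Mathlib

/-!
A Baire category criterion for the existence of a point of Frechet differentiability of a norm.
-/

set_option autoImplicit false

namespace Pool.Agent.P.MP_ae3328_an

open Set Topology Filter

variable {E : Type} [NormedAddCommGroup E] [NormedSpace ℝ E]

/-- Symmetric second difference of the norm. -/
noncomputable def sd (y h : E) : ℝ := ‖y + h‖ + ‖y - h‖ - 2 * ‖y‖

theorem sd_smul_le (y h : E) {θ : ℝ} (h0 : 0 ≤ θ) (h1 : θ ≤ 1) :
    sd y (θ • h) ≤ θ * sd y h := by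
  have key : ∀ k : E, ‖y + θ • k‖ ≤ (1 - θ) * ‖y‖ + θ * ‖y + k‖ := by
    intro k
    have : y + θ • k = (1 - θ) • y + θ • (y + k) := by
      simp only [sub_smul, smul_add, one_smul]; abel
    rw [this]
    refine (norm_add_le _ _).trans ?_
    rw [norm_smul, norm_smul, Real.norm_of_nonneg (by linarith), Real.norm_of_nonneg h0]
  have e1 := key h
  have e2 := key (-h)
  have : y + θ • (-h) = y - θ • h := by rw [smul_neg, sub_eq_add_neg]
  rw [this, ← sub_eq_add_neg] at e2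
  unfold sd
  linarith

omit [NormedSpace ℝ E] in
theorem sd_perturb (y e h : E) : sd (y + e) h ≤ sd y h + 4 * ‖e‖ := by
  unfold sd
  have h1 : ‖y + e + h‖ ≤ ‖y + h‖ + ‖e‖ := by
    have : y + e + h = (y + h) + e := by abel
    rw [this]; exact norm_add_le _ _
  have h2 : ‖y + e - h‖ ≤ ‖y - h‖ + ‖e‖ := by
    have : y + e - h = (y - h) + e := by abel
    rw [this]; exact norm_add_le _ _
  have h3 : ‖y‖ ≤ ‖y + e‖ + ‖e‖ := by
    have : y = (y + e) - e := by abel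
    conv_lhs => rw [this]
    exact norm_sub_le _ _
  linarith

/-- Points that are almost smooth in the direction `h`. -/
def Gd (h : E) (ε : ℝ) : Set E := {y | ∃ δ : ℝ, 0 < δ ∧ sd y (δ • h) < ε * δ}

theorem isOpen_Gd (h : E) (ε : ℝ) : IsOpen (Gd h ε) := by
  have : Gd h ε = ⋃ δ : ℝ, ⋃ _ : 0 < δ, {y | sd y (δ • h) < ε * δ} := by
    ext y; simp [Gd]
  rw [this]
  refine isOpen_iUnion fun δ => isOpen_iUnion fun _ => ?_
  refine isOpen_lt ?_ continuous_const
  unfold sd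
  fun_prop

theorem dense_Gd (h : E) {ε : ℝ} (hε : 0 < ε) : Dense (Gd h ε) := by
  rw [Metric.dense_iff]
  intro y r hr
  by_contra hcon
  have hcon' : ∀ z, ‖z - y‖ < r → ∀ δ : ℝ, 0 < δ → ε * δ ≤ sd z (δ • h) := by
    intro z hz δ hδ
    by_contra h1
    exact hcon ⟨z, by simpa [Metric.mem_ball, dist_eq_norm] using hz, δ, hδ, not_le.1 h1⟩
  obtain ⟨n, hn⟩ := exists_nat_gt (2 * ‖h‖ / ε)
  have hn' : 2 * ‖h‖ < n * ε := by rwa [div_lt_iff₀ hε] at hn
  set δ : ℝ := r / ((n + 1) * (‖h‖ + 1)) with hδ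
  have hδ0 : 0 < δ := by positivity
  let d : ℕ → ℝ := fun i => ‖y + (((i : ℝ) + 1) * δ) • h‖ - ‖y + ((i : ℝ) * δ) • h‖
  have hd : ∀ i, |d i| ≤ δ * ‖h‖ := by
    intro i
    refine (abs_norm_sub_norm_le _ _).trans ?_
    have : y + (((i : ℝ) + 1) * δ) • h - (y + ((i : ℝ) * δ) • h) = δ • h := by
      rw [add_mul, add_smul, one_mul]; abel
    rw [this, norm_smul, Real.norm_of_nonneg hδ0.le]
  have hstep : ∀ i : ℕ, i ≤ n → d 0 + i * (ε * δ) ≤ d i := by
    intro i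
    induction i with
    | zero => intro _; simp
    | succ i ih =>
      intro hi
      have h1 := ih (Nat.le_of_succ_le hi)
      have h2 := hcon' (y + (((i : ℝ) + 1) * δ) • h) (by
        rw [add_sub_cancel_left, norm_smul, Real.norm_of_nonneg (by positivity)]
        have hi' : ((i : ℝ) + 1) ≤ n := by exact_mod_cast hi
        have e1 : ((n : ℝ) + 1) * (‖h‖ + 1) * δ = r := by
          rw [hδ]; field_simp
        have : 0 ≤ ‖h‖ := norm_nonneg _
        have e2 : ((i : ℝ) + 1) * ‖h‖ < (n + 1) * (‖h‖ + 1) := by nlinarith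
        nlinarith) δ hδ0
      have e1 : y + (((i : ℝ) + 1) * δ) • h + δ • h = y + ((((i + 1 : ℕ) : ℝ) + 1) * δ) • h := by
        push_cast
        rw [add_assoc, ← add_smul]; congr 2; ring
      have e2 : y + (((i : ℝ) + 1) * δ) • h - δ • h = y + ((i : ℝ) * δ) • h := by
        rw [add_sub_assoc, ← sub_smul]; congr 2; ring
      unfold sd at h2
      rw [e1, e2] at h2
      have e3 : d (i + 1) = ‖y + ((((i + 1 : ℕ) : ℝ) + 1) * δ) • h‖ -
          ‖y + (((i : ℝ) + 1) * δ) • h‖ := by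
        simp only [d]; push_cast; rfl
      have e4 : d i = ‖y + (((i : ℝ) + 1) * δ) • h‖ - ‖y + ((i : ℝ) * δ) • h‖ := rfl
      push_cast
      push_cast at e3 h2
      linarith
  have h1 := hstep n le_rfl
  have h2 := abs_le.1 (hd n)
  have h3 := abs_le.1 (hd 0)
  nlinarith

/-- Points that are uniformly almost smooth. -/
def Gu (ε : ℝ) : Set E :=
  {y | ∃ δ : ℝ, 0 < δ ∧ ∃ ε' : ℝ, ε' < ε ∧ ∀ h : E, ‖h‖ ≤ 1 → sd y (δ • h) ≤ ε' * δ}

theorem isOpen_Gu (ε : ℝ) : IsOpen (Gu ε : Set E) := by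
  rw [Metric.isOpen_iff]
  rintro y ⟨δ, hδ, ε', hε', hy⟩
  refine ⟨(ε - ε') * δ / 8, by have := sub_pos.2 hε'; positivity, fun z hz => ?_⟩
  refine ⟨δ, hδ, (ε + ε') / 2, by linarith, fun h hh => ?_⟩
  have h1 := sd_perturb y (z - y) (δ • h)
  rw [add_sub_cancel] at h1
  have h2 := hy h hh
  rw [Metric.mem_ball, dist_eq_norm] at hz
  nlinarith

theorem differentiableAt_of_Gu {y : E} (hy : ∀ n : ℕ, y ∈ (Gu (1 / ((n : ℝ) + 1)) : Set E)) :
    DifferentiableAt ℝ (fun z : E => ‖z‖) y := by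
  obtain ⟨g, hg1, hg2⟩ := exists_dual_vector'' ℝ y
  refine ⟨g, ?_⟩
  change HasFDerivAt (fun z : E => ‖z‖) g y
  rw [hasFDerivAt_iff_isLittleO_nhds_zero, Asymptotics.isLittleO_iff]
  intro c hc
  obtain ⟨n, hn⟩ := exists_nat_one_div_lt hc
  obtain ⟨δ, hδ, ε', hε', hy'⟩ := hy n
  filter_upwards [Metric.ball_mem_nhds (0 : E) hδ] with h hh
  rw [Metric.mem_ball, dist_zero_right] at hh
  have hle : ∀ v : E, g v ≤ ‖v‖ := by
    intro v
    calc g v ≤ ‖g v‖ := Real.le_norm_self _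
      _ ≤ ‖g‖ * ‖v‖ := g.le_opNorm v
      _ ≤ 1 * ‖v‖ := by gcongr
      _ = ‖v‖ := one_mul _
  have hgy : g y = ‖y‖ := by simpa using hg2
  have h1 : ‖y‖ + g h ≤ ‖y + h‖ := by have := hle (y + h); rwa [map_add, hgy] at this
  have h2 : ‖y‖ - g h ≤ ‖y - h‖ := by have := hle (y - h); rwa [map_sub, hgy] at this
  have h3 : sd y h ≤ c * ‖h‖ := by
    by_cases h0 : h = 0
    · subst h0; simp [sd]; linarith
    · have hpos : 0 < ‖h‖ := norm_pos_iff.2 h0
      have e : h = (‖h‖ / δ) • (δ • (‖h‖⁻¹ • h)) := by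
        rw [smul_smul, smul_smul]
        have : ‖h‖ / δ * δ * ‖h‖⁻¹ = 1 := by field_simp
        rw [this, one_smul]
      have h4 := sd_smul_le y (δ • (‖h‖⁻¹ • h)) (θ := ‖h‖ / δ) (by positivity)
        (by rw [div_le_one hδ]; exact hh.le)
      rw [← e] at h4
      have h5 := hy' (‖h‖⁻¹ • h) (by
        rw [norm_smul, norm_inv, norm_norm, inv_mul_cancel₀ hpos.ne'])
      calc sd y h ≤ ‖h‖ / δ * sd y (δ • (‖h‖⁻¹ • h)) := h4
        _ ≤ ‖h‖ / δ * (ε' * δ) := by gcongr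
        _ = ε' * ‖h‖ := by field_simp
        _ ≤ c * ‖h‖ := by gcongr; linarith
  unfold sd at h3
  rw [Real.norm_eq_abs, abs_le]
  have : 0 ≤ c * ‖h‖ := by positivity
  constructor <;> linarith

/-- The criterion: if near every nonzero point there are points around which the norm is
controlled by finitely many directions, then the norm is somewhere Frechet differentiable. -/
theorem exists_differentiableAt [CompleteSpace E] [Nontrivial E]
    (hloc : ∀ y : E, y ≠ 0 → ∀ r : ℝ, 0 < r → ∀ ε : ℝ, 0 < ε →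
      ∃ y' : E, ‖y' - y‖ ≤ r ∧ ∃ ρ : ℝ, 0 < ρ ∧ ∃ H : Set E, H.Finite ∧
        ∀ h : E, ‖h‖ ≤ 1 → ∃ h' ∈ H, ∀ x : E, ‖x - y'‖ ≤ ρ → ∀ τ : ℝ, |τ| ≤ ρ →
          ‖x + τ • h‖ ≤ ‖x + τ • h'‖ + ε * |τ|) :
    ∃ y : E, DifferentiableAt ℝ (fun z : E => ‖z‖) y := by
  have hdense : ∀ ε : ℝ, 0 < ε → Dense (Gu ε : Set E) := by
    intro ε hε
    rw [Metric.dense_iff]
    intro y0 r hr
    obtain ⟨y, hy1, hy2⟩ := (Metric.dense_iff.1 (dense_compl_singleton (0 : E))) y0 (r / 3)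
      (by positivity)
    obtain ⟨y', hy', ρ, hρ, H, hH, hnet⟩ := hloc y hy2 (r / 3) (by positivity) (ε / 4)
      (by positivity)
    have hd : Dense (⋂ h ∈ H, Gd h (ε / 4)) :=
      dense_biInter_of_isOpen (fun h _ => isOpen_Gd h _) hH.countable
        (fun h _ => dense_Gd h (by positivity))
    obtain ⟨x, hx1, hx2⟩ := (Metric.dense_iff.1 hd) y' (min ρ (r / 3)) (by positivity)
    rw [Metric.mem_ball, dist_eq_norm, lt_min_iff] at hx1
    rw [Metric.mem_ball, dist_eq_norm] at hy1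
    refine ⟨x, ?_, ?_⟩
    · rw [Metric.mem_ball, dist_eq_norm]
      have : x - y0 = (x - y') + (y' - y) + (y - y0) := by abel
      rw [this]
      have := norm_add₃_le (a := x - y') (b := y' - y) (c := y - y0)
      linarith [hx1.2]
    · have hev : ∀ h ∈ H, ∀ᶠ δ in 𝓝[>] (0 : ℝ), sd x (δ • h) ≤ ε / 4 * δ := by
        intro h hh
        obtain ⟨δ0, hδ0, h1⟩ := (mem_iInter₂.1 hx2) h hh
        filter_upwards [Ioo_mem_nhdsGT hδ0] with δ hδ
        have e : δ • h = (δ / δ0) • (δ0 • h) := by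
          rw [smul_smul]; congr 1; field_simp
        have h2 := sd_smul_le x (δ0 • h) (θ := δ / δ0) (div_nonneg hδ.1.le hδ0.le)
          (by rw [div_le_one hδ0]; exact hδ.2.le)
        rw [← e] at h2
        calc sd x (δ • h) ≤ δ / δ0 * sd x (δ0 • h) := h2
          _ ≤ δ / δ0 * (ε / 4 * δ0) := by
              have : 0 ≤ δ / δ0 := div_nonneg hδ.1.le hδ0.le
              gcongr
          _ = ε / 4 * δ := by field_simp
      have hall := (eventually_all_finite hH).2 hev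
      obtain ⟨δ, hδ1, hδ2⟩ := (hall.and (Ioo_mem_nhdsGT hρ)).exists
      refine ⟨δ, hδ2.1, 3 * ε / 4, by linarith, fun h hh => ?_⟩
      obtain ⟨h', hh', hk⟩ := hnet h hh
      have e1 := hk x hx1.1.le δ (by rw [abs_of_pos hδ2.1]; exact hδ2.2.le)
      have e2 := hk x hx1.1.le (-δ) (by rw [abs_neg, abs_of_pos hδ2.1]; exact hδ2.2.le)
      rw [abs_neg, neg_smul, neg_smul, ← sub_eq_add_neg, ← sub_eq_add_neg] at e2
      rw [abs_of_pos hδ2.1] at e1 e2
      have e3 := hδ1 h' hh'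
      unfold sd at e3 ⊢
      linarith
  have hd : Dense (⋂ n : ℕ, (Gu (1 / ((n : ℝ) + 1)) : Set E)) :=
    dense_iInter_of_isOpen (fun n => isOpen_Gu _) (fun n => hdense _ (by positivity))
  obtain ⟨y, hy⟩ := hd.nonempty
  exact ⟨y, differentiableAt_of_Gu (mem_iInter.1 hy)⟩

/-- Finite nets through a map into a finite-dimensional space. -/
theorem exists_net {V : Type} [NormedAddCommGroup V] [NormedSpace ℝ V] [FiniteDimensional ℝ V]
    (Φ : E →L[ℝ] V) {ε : ℝ} (hε : 0 < ε) :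
    ∃ H : Set E, H.Finite ∧ (∀ h ∈ H, ‖h‖ ≤ 1) ∧
      ∀ h : E, ‖h‖ ≤ 1 → ∃ h' ∈ H, ‖Φ (h - h')‖ ≤ ε := by
  have hb : Bornology.IsBounded (Φ '' Metric.closedBall (0 : E) 1) :=
    Φ.lipschitz.isBounded_image Metric.isBounded_closedBall
  have : ProperSpace V := FiniteDimensional.proper_real V
  have htb : TotallyBounded (Φ '' Metric.closedBall (0 : E) 1) :=
    hb.isCompact_closure.totallyBounded.subset subset_closure
  obtain ⟨t, hts, htf, hcov⟩ := Metric.finite_approx_of_totallyBounded htb ε hε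
  have hch : ∀ v : V, ∃ h : E, v ∈ t → ‖h‖ ≤ 1 ∧ Φ h = v := by
    intro v
    by_cases hv : v ∈ t
    · obtain ⟨h, hh, rfl⟩ := hts hv
      exact ⟨h, fun _ => ⟨by simpa using hh, rfl⟩⟩
    · exact ⟨0, fun h => absurd h hv⟩
  choose f hf using hch
  refine ⟨f '' t, htf.image f, ?_, ?_⟩
  · rintro _ ⟨v, hv, rfl⟩
    exact (hf v hv).1
  · intro h hh
    have := hcov ⟨h, by simpa using hh, rfl⟩
    simp only [mem_iUnion] at this
    obtain ⟨v, hv, hv'⟩ := this
    refine ⟨f v, ⟨v, hv, rfl⟩, ?_⟩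
    rw [map_sub, (hf v hv).2, ← dist_eq_norm]
    exact (Metric.mem_ball.1 hv').le

end Pool.Agent.P.MP_ae3328_an
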