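import Mathlib

/-!
The synchronised James tree space.  A vector is a real function `F` on the binary tree with
`F [] = 0`.  A segment is a pair `(k, t)` and measures `F t - F (t.take k)`.  Two segments are
compatible if they live on disjoint ranges of levels, or start on the same level at different
nodes.  The norm is the supremum of the Euclidean norms over finite compatible families, and the
space is the closure of the functions depending on finitely many levels.
-/

set_option autoImplicit false
set_option linter.dupNamespace false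

namespace Pool.Agent.P.MP_ae3328_an

open Set Topology Filter
open scoped ENNReal

/-- Nodes of the binary tree. -/
abbrev Nd : Type := List Bool

/-- Segments. -/
abbrev Seg : Type := ℕ × Nd

/-- The increment of a function along a segment. -/
def dif (F : Nd → ℝ) (σ : Seg) : ℝ := F σ.2 - F (σ.2.take σ.1)

/-- Compatibility of segments. -/
def Compat (σ τ : Seg) : Prop :=
  σ.2.length ≤ τ.1 ∨ τ.2.length ≤ σ.1 ∨ (σ.1 = τ.1 ∧ σ.2.take σ.1 ≠ τ.2.take τ.1)

theorem Compat.symm {σ τ : Seg} (h : Compat σ τ) : Compat τ σ := by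
  rcases h with h | h | h
  · exact Or.inr (Or.inl h)
  · exact Or.inl h
  · exact Or.inr (Or.inr ⟨h.1.symm, h.2.symm⟩)

/-- Finite compatible families of segments. -/
structure Cfg where
  n : ℕ
  seg : Fin n → Seg
  compat : Pairwise (fun i j => Compat (seg i) (seg j))

/-- The ambient space. -/
abbrev Amb : Type := lp (fun c : Cfg => EuclideanSpace ℝ (Fin c.n)) ∞

/-- The family with the single segment from the root to `t`. -/
def sg (t : Nd) : Cfg := ⟨1, fun _ => (0, t), fun i j h => absurd (Subsingleton.elim i j) h⟩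

/-- Coordinate of the ambient space. -/
noncomputable def TA (c : Cfg) : Amb →L[ℝ] EuclideanSpace ℝ (Fin c.n) :=
  lp.evalCLM ℝ (fun c : Cfg => EuclideanSpace ℝ (Fin c.n)) ∞ c

theorem TA_apply (c : Cfg) (x : Amb) : TA c x = x c := rfl

/-- Value at a node. -/
noncomputable def evA (t : Nd) : Amb →L[ℝ] ℝ :=
  (EuclideanSpace.proj (𝕜 := ℝ) (⟨0, Nat.one_pos⟩ : Fin (sg t).n)).comp (TA (sg t))

/-- Nodes of length at most `m`. -/
abbrev Nm (m : ℕ) : Type := {t : Nd // t.length ≤ m}

instance (m : ℕ) : Finite (Nm m) := (List.finite_length_le Bool m).to_subtype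

noncomputable instance (m : ℕ) : Fintype (Nm m) := Fintype.ofFinite _

/-- Truncation of a node. -/
def tk (m : ℕ) (t : Nd) : Nm m := ⟨t.take m, List.length_take_le m t⟩

theorem count_le (m : ℕ) {ι : Type} (J : Finset ι) (seg : ι → Seg)
    (hc : (J : Set ι).Pairwise (fun i j => Compat (seg i) (seg j)))
    (hJ : ∀ i ∈ J, (seg i).1 ≤ m ∧ (seg i).1 < (seg i).2.length) :
    J.card ≤ Fintype.card (Nm m) := by
  classical
  rw [← Finset.card_univ]
  refine Finset.card_le_card_of_injOn
    (fun i => tk m ((seg i).2.take (seg i).1)) (fun _ _ => by simp) ?_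
  intro i hi j hj hij
  by_contra hne
  have hi' := hJ i hi
  have hj' := hJ j hj
  have e : (seg i).2.take (seg i).1 = (seg j).2.take (seg j).1 := by
    have h1 := congrArg Subtype.val hij
    simp only [tk, List.take_take] at h1
    rwa [min_eq_right hi'.1, min_eq_right hj'.1] at h1
  have ek : (seg i).1 = (seg j).1 := by
    have := congrArg List.length e
    simp only [List.length_take] at this
    omega
  rcases hc hi hj hne with h | h | h
  · omega
  · omega
  · exact h.2 e

/-- A sum of squares with few small nonzero terms is small. -/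
theorem sum_sq_le_of_few (m : ℕ) {ι : Type} [Fintype ι] (seg : ι → Seg)
    (hc : Pairwise (fun i j => Compat (seg i) (seg j))) (a : ι → ℝ) {M : ℝ}
    (hM : ∀ i, |a i| ≤ M)
    (ha : ∀ i, a i ≠ 0 → (seg i).1 ≤ m ∧ (seg i).1 < (seg i).2.length) :
    ∑ i, a i ^ 2 ≤ Fintype.card (Nm m) * M ^ 2 := by
  classical
  have h1 : ∑ i, a i ^ 2 = ∑ i ∈ Finset.univ.filter (fun i => a i ≠ 0), a i ^ 2 := by
    rw [Finset.sum_filter_of_ne]
    intro i _ hi h0
    exact hi (by rw [h0]; ring)
  rw [h1]
  have h2 := count_le m (Finset.univ.filter (fun i => a i ≠ 0)) seg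
    (fun i _ j _ hij => hc hij) (fun i hi => ha i (Finset.mem_filter.1 hi).2)
  calc ∑ i ∈ Finset.univ.filter (fun i => a i ≠ 0), a i ^ 2
      ≤ (Finset.univ.filter (fun i => a i ≠ 0)).card • M ^ 2 := by
        refine Finset.sum_le_card_nsmul _ _ _ fun i _ => ?_
        rw [← sq_abs]
        exact pow_le_pow_left₀ (abs_nonneg _) (hM i) 2
    _ ≤ Fintype.card (Nm m) * M ^ 2 := by
        rw [nsmul_eq_mul]
        gcongr

theorem memℓp_fin (m : ℕ) (G : Nm m → ℝ) :
    Memℓp (fun c : Cfg => (WithLp.toLp 2 (fun i => dif (fun t => G (tk m t)) (c.seg i)) :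
      EuclideanSpace ℝ (Fin c.n))) ∞ := by
  refine memℓp_infty ⟨√(Fintype.card (Nm m) * (2 * ‖G‖) ^ 2), ?_⟩
  rintro _ ⟨c, rfl⟩
  refine Real.le_sqrt_of_sq_le ?_
  rw [EuclideanSpace.real_norm_sq_eq]
  refine sum_sq_le_of_few m c.seg c.compat _ (fun i => ?_) (fun i hi => ?_)
  · have h1 := norm_le_pi_norm G (tk m (c.seg i).2)
    have h2 := norm_le_pi_norm G (tk m ((c.seg i).2.take (c.seg i).1))
    rw [Real.norm_eq_abs] at h1 h2
    exact (abs_sub _ _).trans (by linarith)
  · by_contra hcon
    apply hi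
    have : tk m ((c.seg i).2.take (c.seg i).1) = tk m (c.seg i).2 := by
      apply Subtype.ext
      simp only [tk, List.take_take]
      by_cases h : (c.seg i).1 ≤ m
      · have h' : (c.seg i).2.length ≤ (c.seg i).1 := by
          by_contra h'
          exact hcon ⟨h, not_le.1 h'⟩
        rw [List.take_of_length_le (by omega), List.take_of_length_le (by omega)]
      · rw [min_eq_left (by omega)]
    simp only [dif, this, sub_self]

/-- The vector of the ambient space given by a function of the first `m` levels. -/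
noncomputable def JA (m : ℕ) : (Nm m → ℝ) →ₗ[ℝ] Amb where
  toFun G := ⟨fun c => WithLp.toLp 2 (fun i => dif (fun t => G (tk m t)) (c.seg i)),
    memℓp_fin m G⟩
  map_add' G G' := by
    ext c i
    simp only [lp.coeFn_add, Pi.add_apply, PiLp.add_apply, dif]
    ring
  map_smul' a G := by
    ext c i
    simp only [lp.coeFn_smul, Pi.smul_apply, PiLp.smul_apply, dif, smul_eq_mul, RingHom.id_apply]
    ring

theorem TA_JA (m : ℕ) (G : Nm m → ℝ) (c : Cfg) (i : Fin c.n) :
    TA c (JA m G) i = dif (fun t => G (tk m t)) (c.seg i) := rfl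

theorem evA_JA (m : ℕ) (G : Nm m → ℝ) (t : Nd) :
    evA t (JA m G) = G (tk m t) - G (tk m []) := rfl

/-- The space, as a closed subspace of the ambient space. -/
noncomputable def XS : Submodule ℝ Amb := (⨆ m : ℕ, LinearMap.range (JA m)).topologicalClosure

/-- The synchronised James tree space. -/
def X : Type := XS

noncomputable instance : NormedAddCommGroup X := inferInstanceAs (NormedAddCommGroup XS)

noncomputable instance : NormedSpace ℝ X := inferInstanceAs (NormedSpace ℝ XS)

instance : CompleteSpace X :=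
  (Submodule.isClosed_topologicalClosure _).completeSpace_coe

/-- The inclusion into the ambient space. -/
noncomputable def inc : X →L[ℝ] Amb := XS.subtypeL

/-- Value at a node. -/
noncomputable def ev (t : Nd) : X →L[ℝ] ℝ := (evA t).comp inc

/-- The Euclidean vector of increments along a family. -/
noncomputable def T (c : Cfg) : X →L[ℝ] EuclideanSpace ℝ (Fin c.n) := (TA c).comp inc

theorem JA_mem (m : ℕ) (G : Nm m → ℝ) : JA m G ∈ XS :=
  Submodule.le_topologicalClosure _ (Submodule.mem_iSup_of_mem m ⟨G, rfl⟩)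

/-- The vector of the space given by a function of the first `m` levels. -/
noncomputable def J (m : ℕ) : (Nm m → ℝ) →L[ℝ] X :=
  LinearMap.toContinuousLinearMap
    (show (Nm m → ℝ) →ₗ[ℝ] X from LinearMap.codRestrict XS (JA m) (JA_mem m))

theorem ev_J (m : ℕ) (G : Nm m → ℝ) (t : Nd) : ev t (J m G) = G (tk m t) - G (tk m []) := rfl

/-- Induction principle for the space. -/
theorem X_induction {p : X → Prop} (hcl : IsClosed {x | p x}) (h0 : p 0)
    (hadd : ∀ x y, p x → p y → p (x + y)) (hJ : ∀ m G, p (J m G)) (x : X) : p x := by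
  have h1 : ∀ a ∈ (⨆ m : ℕ, LinearMap.range (JA m)), ∃ h : a ∈ XS, p ⟨a, h⟩ := by
    intro a ha
    refine Submodule.iSup_induction (fun m : ℕ => LinearMap.range (JA m))
      (motive := fun a => ∃ h : a ∈ XS, p ⟨a, h⟩) ha ?_ ⟨XS.zero_mem, h0⟩ ?_
    · rintro m _ ⟨G, rfl⟩
      exact ⟨JA_mem m G, hJ m G⟩
    · rintro a b ⟨ha, pa⟩ ⟨hb, pb⟩
      exact ⟨XS.add_mem ha hb, hadd _ _ pa pb⟩
  have h2 : IsClosed (inc '' {x : X | p x}) :=
    (Submodule.isClosed_topologicalClosure _).isClosedEmbedding_subtypeVal.isClosedMap _ hcl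
  have h3 : inc x ∈ closure
      ((⨆ m : ℕ, LinearMap.range (JA m) : Submodule ℝ Amb) : Set Amb) := x.2
  have h4 := closure_minimal (fun a ha => by
    obtain ⟨h, hp⟩ := h1 a ha
    exact (⟨⟨a, h⟩, hp, rfl⟩ : a ∈ inc '' {x : X | p x})) h2 h3
  obtain ⟨y, hy, hxy⟩ := h4
  have hxy' : y = x := Subtype.ext hxy
  rwa [hxy'] at hy

theorem T_apply (c : Cfg) (x : X) (i : Fin c.n) :
    T c x i = dif (fun t => ev t x) (c.seg i) := by
  induction x using X_induction with
  | hcl =>
    refine isClosed_eq ?_ ?_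
    · exact ((EuclideanSpace.proj (𝕜 := ℝ) i).comp (T c)).continuous
    · exact (ev _).continuous.sub (ev _).continuous
  | h0 => simp [dif]
  | hadd x y hx hy =>
    simp only [map_add, PiLp.add_apply, hx, hy, dif]
    ring
  | hJ m G =>
    have : T c (J m G) i = dif (fun t => G (tk m t)) (c.seg i) := rfl
    rw [this]
    simp only [dif, ev_J]
    ring

theorem ev_nil (x : X) : ev [] x = 0 := by
  have := T_apply (sg []) x ⟨0, Nat.one_pos⟩
  have e : T (sg []) x ⟨0, Nat.one_pos⟩ = ev [] x := rfl
  rw [e] at this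
  rw [this]
  simp [dif, sg]

theorem norm_T_le (c : Cfg) (x : X) : ‖T c x‖ ≤ ‖x‖ :=
  lp.norm_apply_le_norm (by simp) (inc x) c

theorem norm_le_of_T (x : X) {B : ℝ} (hB : 0 ≤ B) (h : ∀ c, ‖T c x‖ ≤ B) : ‖x‖ ≤ B :=
  lp.norm_le_of_forall_le (f := inc x) hB h

theorem norm_T_sq (c : Cfg) (x : X) :
    ‖T c x‖ ^ 2 = ∑ i, dif (fun t => ev t x) (c.seg i) ^ 2 := by
  rw [EuclideanSpace.real_norm_sq_eq]
  simp only [T_apply]

theorem sum_sq_le {ι : Type} [Fintype ι] (seg : ι → Seg)
    (hc : Pairwise (fun i j => Compat (seg i) (seg j))) (x : X) :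
    ∑ i, dif (fun t => ev t x) (seg i) ^ 2 ≤ ‖x‖ ^ 2 := by
  let e := (Fintype.equivFin ι).symm
  let c : Cfg := ⟨Fintype.card ι, fun i => seg (e i), fun i j h => hc (e.injective.ne h)⟩
  have h1 := norm_T_sq c x
  have h2 : ∑ i, dif (fun t => ev t x) (c.seg i) ^ 2 = ∑ i, dif (fun t => ev t x) (seg i) ^ 2 :=
    Equiv.sum_comp e (fun i => dif (fun t => ev t x) (seg i) ^ 2)
  rw [← h2, ← h1]
  exact pow_le_pow_left₀ (norm_nonneg _) (norm_T_le c x) 2

theorem norm_sq_le (x : X) {A : ℝ}
    (h : ∀ c : Cfg, ∑ i, dif (fun t => ev t x) (c.seg i) ^ 2 ≤ A) : ‖x‖ ^ 2 ≤ A := by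
  have hA : 0 ≤ A := by
    have := h ⟨0, fun i => i.elim0, fun i => i.elim0⟩
    simpa using this
  have := norm_le_of_T x (Real.sqrt_nonneg A) (fun c => Real.le_sqrt_of_sq_le (by
    rw [norm_T_sq]; exact h c))
  calc ‖x‖ ^ 2 ≤ (√A) ^ 2 := pow_le_pow_left₀ (norm_nonneg _) this 2
    _ = A := Real.sq_sqrt hA

theorem abs_ev_le (t : Nd) (x : X) : |ev t x| ≤ ‖x‖ := by
  have := sum_sq_le (ι := Unit) (fun _ => (0, t)) (fun i j h => absurd rfl h) x
  simp only [Finset.univ_unique, Finset.sum_singleton, dif, List.take_zero, ev_nil,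
    sub_zero] at this
  exact abs_le_of_sq_le_sq' this (norm_nonneg _) |> abs_le.2

theorem X_ext {x y : X} (h : ∀ t, ev t x = ev t y) : x = y := by
  have := norm_sq_le (x - y) (A := 0) (fun c => by simp [dif, h])
  have h2 : ‖x - y‖ = 0 := by nlinarith [norm_nonneg (x - y)]
  exact sub_eq_zero.1 (norm_eq_zero.1 h2)

/-- Restriction to the first `m` levels. -/
noncomputable def R (m : ℕ) : X →L[ℝ] (Nm m → ℝ) :=
  ContinuousLinearMap.pi (fun t : Nm m => ev t.1)

/-- The projection onto the first `m` levels. -/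
noncomputable def P (m : ℕ) : X →L[ℝ] X := (J m).comp (R m)

theorem ev_P (m : ℕ) (t : Nd) (x : X) : ev t (P m x) = ev (t.take m) x := by
  have : ev t (P m x) = ev (t.take m) x - ev (([] : Nd).take m) x := rfl
  rw [this, List.take_nil, ev_nil, sub_zero]

theorem P_P (a b : ℕ) (x : X) : P a (P b x) = P (min a b) x := by
  refine X_ext fun t => ?_
  simp only [ev_P, List.take_take, min_comm]

theorem pyth (m : ℕ) (x : X) : ‖P m x‖ ^ 2 + ‖x - P m x‖ ^ 2 ≤ ‖x‖ ^ 2 := by
  have key : ∀ c₁ c₂ : Cfg, ∑ i, dif (fun t => ev t (P m x)) (c₁.seg i) ^ 2 +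
      ∑ i, dif (fun t => ev t (x - P m x)) (c₂.seg i) ^ 2 ≤ ‖x‖ ^ 2 := by
    intro c₁ c₂
    let seg : Fin c₁.n ⊕ Fin c₂.n → Seg := Sum.elim
      (fun i => (min (c₁.seg i).1 m, (c₁.seg i).2.take m))
      (fun i => (max (c₂.seg i).1 m, (c₂.seg i).2))
    have hc : Pairwise (fun i j => Compat (seg i) (seg j)) := by
      rintro (i | i) (j | j) hij
      · have := c₁.compat (i := i) (j := j) (fun h => hij (by rw [h]))
        simp only [seg, Sum.elim_inl, Compat, List.length_take, List.take_take] at this ⊢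
        rcases this with h | h | h
        · left; omega
        · right; left; omega
        · by_cases hk : (c₁.seg i).1 ≤ m
          · right; right
            refine ⟨by rw [h.1], ?_⟩
            have hk' : (c₁.seg j).1 ≤ m := h.1 ▸ hk
            rw [min_eq_left hk, min_eq_left hk, min_eq_left hk', min_eq_left hk']
            exact h.2
          · left; omega
      · left
        simp only [seg, Sum.elim_inl, Sum.elim_inr, List.length_take]
        omega
      · right; left
        simp only [seg, Sum.elim_inl, Sum.elim_inr, List.length_take]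
        omega
      · have := c₂.compat (i := i) (j := j) (fun h => hij (by rw [h]))
        simp only [seg, Sum.elim_inr, Compat] at this ⊢
        rcases this with h | h | h
        · left; omega
        · right; left; omega
        · right; right
          refine ⟨by rw [h.1], fun h' => h.2 ?_⟩
          have h2 := congrArg (List.take (c₂.seg i).1) h'
          rw [List.take_take, List.take_take, min_eq_left (le_max_left _ _), ← h.1,
            min_eq_left (le_max_left _ _)] at h2
          rw [← h.1]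
          exact h2
    have h1 := sum_sq_le seg hc x
    rw [Fintype.sum_sum_type] at h1
    refine le_of_eq_of_le ?_ h1
    congr 1
    · refine Finset.sum_congr rfl fun i _ => ?_
      simp only [seg, Sum.elim_inl, dif, ev_P, List.take_take]
      rw [min_assoc, min_self, min_comm]
    · refine Finset.sum_congr rfl fun i _ => ?_
      simp only [seg, Sum.elim_inr, dif, map_sub, ev_P, List.take_take]
      congr 1
      rcases le_total (c₂.seg i).1 m with h | h
      · rw [max_eq_right h, min_eq_right h]; ring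
      · rw [max_eq_left h, min_eq_left h]; ring
  have h1 : ∀ c₂ : Cfg, ‖P m x‖ ^ 2 ≤
      ‖x‖ ^ 2 - ∑ i, dif (fun t => ev t (x - P m x)) (c₂.seg i) ^ 2 := fun c₂ =>
    norm_sq_le _ (fun c₁ => by linarith [key c₁ c₂])
  have h2 : ‖x - P m x‖ ^ 2 ≤ ‖x‖ ^ 2 - ‖P m x‖ ^ 2 :=
    norm_sq_le _ (fun c₂ => by linarith [h1 c₂])
  linarith

theorem norm_P_le (m : ℕ) (x : X) : ‖P m x‖ ≤ ‖x‖ := by
  have := pyth m x
  exact le_of_sq_le_sq (by nlinarith [sq_nonneg ‖x - P m x‖]) (norm_nonneg _) |> fun h => h

theorem norm_Q_le (m : ℕ) (x : X) : ‖x - P m x‖ ≤ ‖x‖ := by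
  have := pyth m x
  exact le_of_sq_le_sq (by nlinarith [sq_nonneg ‖P m x‖]) (norm_nonneg _) |> fun h => h

theorem norm_Q_mono {a b : ℕ} (hab : a ≤ b) (x : X) : ‖x - P b x‖ ≤ ‖x - P a x‖ := by
  have := norm_Q_le b (x - P a x)
  rw [map_sub, P_P, min_eq_right hab] at this
  have e : x - P a x - (P b x - P a x) = x - P b x := by abel
  rwa [e] at this

theorem exists_tail_le (x : X) {ε : ℝ} (hε : 0 < ε) : ∃ m, ‖x - P m x‖ ≤ ε := by
  have key : ∀ x : X, ∀ ε : ℝ, 0 < ε → ∃ m, ‖x - P m x‖ ≤ ε := by
    intro x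
    induction x using X_induction with
    | hcl =>
      refine isClosed_of_closure_subset fun x hx ε hε => ?_
      obtain ⟨y, hy, hxy⟩ := Metric.mem_closure_iff.1 hx (ε / 2) (by positivity)
      obtain ⟨m, hm⟩ := hy (ε / 2) (by positivity)
      refine ⟨m, ?_⟩
      have h1 := norm_Q_le m (x - y)
      rw [dist_eq_norm] at hxy
      have e : x - P m x = (x - y - P m (x - y)) + (y - P m y) := by rw [map_sub]; abel
      rw [e]
      exact (norm_add_le _ _).trans (by linarith)
    | h0 => intro ε hε; exact ⟨0, by simpa using hε.le⟩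
    | hadd x y hx hy =>
      intro ε hε
      obtain ⟨a, ha⟩ := hx (ε / 2) (by positivity)
      obtain ⟨b, hb⟩ := hy (ε / 2) (by positivity)
      refine ⟨max a b, ?_⟩
      have h1 := norm_Q_mono (le_max_left a b) x
      have h2 := norm_Q_mono (le_max_right a b) y
      have e : x + y - P (max a b) (x + y) = (x - P (max a b) x) + (y - P (max a b) y) := by
        rw [map_add]; abel
      rw [e]
      exact (norm_add_le _ _).trans (by linarith)
    | hJ m G =>
      intro ε hε
      refine ⟨m, ?_⟩
      have : P m (J m G) = J m G := by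
        refine X_ext fun t => ?_
        rw [ev_P, ev_J, ev_J]
        congr 2
        apply Subtype.ext
        simp [tk, List.take_take]
      rw [this, sub_self, norm_zero]
      exact hε.le
  exact key x ε hε

instance : TopologicalSpace.SeparableSpace X := by
  rw [← TopologicalSpace.isSeparable_univ_iff]
  have h1 : TopologicalSpace.IsSeparable (⋃ m : ℕ, range (J m)) :=
    TopologicalSpace.IsSeparable.iUnion fun m =>
      TopologicalSpace.isSeparable_range (J m).continuous
  refine h1.closure.mono fun x _ => ?_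
  rw [Metric.mem_closure_iff]
  intro ε hε
  obtain ⟨m, hm⟩ := exists_tail_le x (half_pos hε)
  refine ⟨P m x, mem_iUnion.2 ⟨m, R m x, rfl⟩, ?_⟩
  rw [dist_eq_norm]
  linarith

end Pool.Agent.P.MP_ae3328_an
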