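import Pool.Agent.P.MP_ae3328_an.Basic

/-!
The dual of the synchronised James tree space is not separable.
-/

set_option autoImplicit false
set_option linter.dupNamespace false

namespace Pool.Agent.P.MP_ae3328_an

open Set Topology Filter

/-- The node of a branch on level `l`. -/
def node (γ : ℕ → Bool) (l : ℕ) : Nd := (List.range l).map γ

theorem take_node (γ : ℕ → Bool) (m l : ℕ) : (node γ l).take m = node γ (min m l) := by
  simp only [node, ← List.map_take, List.take_range]

theorem exists_branch (γ : ℕ → Bool) :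
    ∃ φ : X →L[ℝ] ℝ, ∀ x, Tendsto (fun l => ev (node γ l) x) atTop (𝓝 (φ x)) := by
  have h1 : ∀ x : X, ∃ a : ℝ, Tendsto (fun l => ev (node γ l) x) atTop (𝓝 a) := by
    intro x
    refine cauchySeq_tendsto_of_complete (Metric.cauchySeq_iff'.2 fun ε hε => ?_)
    obtain ⟨m, hm⟩ := exists_tail_le x (half_pos hε)
    refine ⟨m, fun l hl => ?_⟩
    have := abs_ev_le (node γ l) (x - P m x)
    rw [map_sub, ev_P, take_node, min_eq_left hl] at this
    rw [Real.dist_eq]
    linarith
  choose f hf using h1
  exact ⟨continuousLinearMapOfTendsto (fun l => ev (node γ l)) (tendsto_pi_nhds.2 hf), hf⟩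

theorem exists_sep {γ γ' : ℕ → Bool} {i : ℕ} (h : γ i ≠ γ' i) :
    ∃ x : X, ‖x‖ ≤ 1 ∧ (∀ l, i + 1 ≤ l → ev (node γ l) x = 1) ∧
      ∀ l, i + 1 ≤ l → ev (node γ' l) x = 0 := by
  classical
  set m := i + 1 with hm
  set t₀ := node γ m with ht₀
  have hlen : t₀.length = m := by simp [ht₀, node]
  let G : Nm m → ℝ := fun s => if s.1 = t₀ then 1 else 0
  have hev : ∀ t, ev t (J m G) = if t.take m = t₀ then 1 else 0 := by
    intro t
    rw [ev_J]
    have : ¬ (([] : Nd) = t₀) := by
      intro h0
      rw [← h0] at hlen
      simp [hm] at hlen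
    simp [G, tk, this]
  refine ⟨J m G, ?_, fun l hl => ?_, fun l hl => ?_⟩
  · refine le_of_sq_le_sq ?_ zero_le_one |> fun h => h
    refine norm_sq_le _ fun c => ?_
    have hnz : ∀ j, dif (fun t => ev t (J m G)) (c.seg j) ≠ 0 →
        (c.seg j).2.take m = t₀ ∧ (c.seg j).1 < m := by
      intro j hj
      simp only [dif, hev, List.take_take] at hj
      have hk : (c.seg j).1 < m := by
        by_contra hk
        rw [min_eq_left (not_lt.1 hk), sub_self] at hj
        exact hj rfl
      refine ⟨?_, hk⟩
      by_contra h1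
      have h2 : ¬ (c.seg j).2.take (min m (c.seg j).1) = t₀ := by
        intro h2
        have := congrArg List.length h2
        simp only [List.length_take, hlen] at this
        omega
      rw [if_neg h1, if_neg h2, sub_self] at hj
      exact hj rfl
    have hle : ∀ j, dif (fun t => ev t (J m G)) (c.seg j) ^ 2 ≤ 1 ^ 2 := by
      intro j
      simp only [dif, hev]
      split_ifs <;> norm_num
    by_cases hex : ∃ j, dif (fun t => ev t (J m G)) (c.seg j) ≠ 0
    · obtain ⟨j, hj⟩ := hex
      rw [Finset.sum_eq_single j]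
      · exact hle j
      · intro k _ hkj
        by_contra hk
        have hk' : dif (fun t => ev t (J m G)) (c.seg k) ≠ 0 := fun h0 => hk (by rw [h0]; ring)
        obtain ⟨a1, a2⟩ := hnz j hj
        obtain ⟨b1, b2⟩ := hnz k hk'
        have a3 := congrArg List.length a1
        have b3 := congrArg List.length b1
        simp only [List.length_take, hlen] at a3 b3
        rcases c.compat hkj with h1 | h1 | h1
        · omega
        · omega
        · apply h1.2
          have e1 := congrArg (List.take (c.seg k).1) (b1.trans a1.symm)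
          rw [List.take_take, List.take_take, min_eq_left b2.le] at e1
          rw [← h1.1]
          exact e1
      · intro hj'
        exact absurd (Finset.mem_univ j) hj'
    · push Not at hex
      simp [hex]
  · rw [hev, take_node, min_eq_left hl, if_pos rfl]
  · rw [hev, take_node, min_eq_left hl, if_neg]
    intro h1
    have := (List.map_inj_left.1 h1) i (by simp [hm])
    exact h this.symm

theorem not_separable_dual : ¬ TopologicalSpace.SeparableSpace (X →L[ℝ] ℝ) := by
  intro hsep
  choose φ hφ using exists_branch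
  have hd : ∀ γ γ' : ℕ → Bool, γ ≠ γ' → 1 ≤ dist (φ γ) (φ γ') := by
    intro γ γ' hne
    obtain ⟨i, hi⟩ := Function.ne_iff.1 hne
    obtain ⟨x, hx, h1, h2⟩ := exists_sep hi
    have e1 : φ γ x = 1 := tendsto_nhds_unique (hφ γ x)
      (tendsto_const_nhds.congr' ((eventually_ge_atTop (i + 1)).mono fun l hl => (h1 l hl).symm))
    have e2 : φ γ' x = 0 := tendsto_nhds_unique (hφ γ' x)
      (tendsto_const_nhds.congr' ((eventually_ge_atTop (i + 1)).mono fun l hl => (h2 l hl).symm))
    have h3 := (φ γ - φ γ').le_opNorm x
    rw [sub_apply, e1, e2, sub_zero, norm_one] at h3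
    rw [dist_eq_norm]
    nlinarith [norm_nonneg (φ γ - φ γ')]
  have h2 : Cardinal.mk (ℕ → Bool) = Cardinal.continuum := by simp
  have hc : Countable (ℕ → Bool) :=
    Pairwise.countable_of_isOpen_disjoint (s := fun γ => Metric.ball (φ γ) (1 / 2))
      (fun γ γ' h => Metric.ball_disjoint_ball (by linarith [hd γ γ' h]))
      (fun _ => Metric.isOpen_ball) (fun _ => Metric.nonempty_ball.2 (by norm_num))
  have h1 : Cardinal.mk (ℕ → Bool) ≤ Cardinal.aleph0 := Cardinal.mk_le_aleph0
  rw [h2] at h1
  exact absurd h1 (not_le.2 Cardinal.aleph0_lt_continuum)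

end Pool.Agent.P.MP_ae3328_an
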