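import Pool.Agent.P.MP_ae3328_an.Spread
import Pool.Agent.P.MP_ae3328_an.Baire

/-!
Adding a spread vector forces a cut: near the perturbed point the norm hardly depends on deep
levels.  Hence the norm is somewhere Frechet differentiable on every nonzero closed subspace.
-/

set_option autoImplicit false
set_option linter.dupNamespace false

namespace Pool.Agent.P.MP_ae3328_an

open Set Topology Filter

theorem local_flat (Y : Submodule ℝ X) (hY : ¬ FiniteDimensional ℝ Y) {y : X} (hyY : y ∈ Y)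
    (hy0 : y ≠ 0) {r ε : ℝ} (hr : 0 < r) (hε : 0 < ε) :
    ∃ y' ∈ Y, ‖y' - y‖ ≤ r ∧ ∃ ρ : ℝ, 0 < ρ ∧ ∃ m : ℕ, ∀ x z : X, ‖x - y'‖ ≤ ρ → P m z = 0 →
      ‖z‖ ≤ ρ → ‖x + z‖ ≤ ‖x‖ + ε * ‖z‖ := by
  set a := ‖y‖ with ha
  have ha0 : 0 < a := norm_pos_iff.2 hy0
  set η : ℝ := min r (min a (ε * a / 3)) with hη
  have hη0 : 0 < η := by positivity
  have hηr : η ≤ r := min_le_left _ _
  have hηa : η ≤ a := (min_le_right _ _).trans (min_le_left _ _)
  have hηε : η ≤ ε * a / 3 := (min_le_right _ _).trans (min_le_right _ _)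
  set ρ : ℝ := η ^ 2 / (96 * a) with hρ
  have hρ0 : 0 < ρ := by positivity
  have hρ1 : 96 * a * ρ = η ^ 2 := by rw [hρ]; field_simp
  have hρ2 : 96 * ρ ≤ η := by
    have : a * (96 * ρ) ≤ a * η := by nlinarith
    exact le_of_mul_le_mul_left this ha0
  obtain ⟨k₀, hk₀⟩ := exists_tail_le y hρ0
  set C : ℝ := (Fintype.card (Nm k₀) : ℝ) with hC
  have hC0 : 0 ≤ C := by positivity
  obtain ⟨w, hwY, hw0, hw1, hw2⟩ := exists_spread Y hY k₀ hη0
    (σ := ρ / (2 * (C + 1))) (by positivity)
  obtain ⟨m₀, hm₀⟩ := exists_tail_le w hρ0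
  set m := max k₀ m₀ with hm
  have hkm : k₀ ≤ m := le_max_left _ _
  have hwm : ‖w - P m w‖ ≤ ρ := (norm_Q_mono (le_max_right _ _) w).trans hm₀
  refine ⟨y + w, Y.add_mem hyY hwY, by rw [add_sub_cancel_left, hw1]; exact hηr, ρ, hρ0, m,
    fun x z hx hz0 hz => ?_⟩
  set u := P k₀ y with hu
  have hu1 : ‖u‖ ≤ a := norm_P_le _ _
  have hu2 : a - ρ ≤ ‖u‖ := by
    have := norm_sub_norm_le y u
    linarith
  -- lower bound for the norm of `x`
  have hlow : ‖u‖ + 5 * ρ ≤ ‖x‖ := by
    have h1 := pyth k₀ (y + w)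
    rw [map_add, hw0, add_zero, ← hu] at h1
    have h2 : η - ρ ≤ ‖y + w - u‖ := by
      have e : y + w - u = w - (u - y) := by abel
      rw [e]
      have h3 := norm_sub_norm_le w (u - y)
      rw [norm_sub_rev u y] at h3
      linarith
    have h3 : (η - ρ) ^ 2 ≤ ‖y + w - u‖ ^ 2 := pow_le_pow_left₀ (by linarith) h2 2
    have h4 : (‖u‖ + 6 * ρ) ^ 2 ≤ ‖y + w‖ ^ 2 := by
      have : 12 * ρ * ‖u‖ ≤ 12 * ρ * a := by gcongr
      nlinarith
    have h5 : ‖u‖ + 6 * ρ ≤ ‖y + w‖ := le_of_sq_le_sq h4 (norm_nonneg _) |> fun h => h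
    have h6 := norm_sub_norm_le (y + w) x
    rw [norm_sub_rev] at h6
    linarith
  have hεz : 0 ≤ ε * ‖z‖ := by positivity
  refine norm_le_of_T _ (by positivity) fun c => ?_
  by_cases hB : ∃ i, (c.seg i).1 ≤ k₀ ∧ m < (c.seg i).2.length
  · obtain ⟨i, hi1, hi2⟩ := hB
    have hv : ‖T c (P m w)‖ ≤ ρ := by
      refine le_of_sq_le_sq ?_ hρ0.le |> fun h => h
      rw [norm_T_sq]
      have h1 := sum_sq_le_of_few k₀ c.seg c.compat
        (fun j => dif (fun t => ev t (P m w)) (c.seg j)) (M := 2 * (ρ / (2 * (C + 1))))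
        (fun j => by
          simp only [dif, ev_P]
          refine (abs_sub _ _).trans ?_
          linarith [hw2 ((c.seg j).2.take m), hw2 (((c.seg j).2.take (c.seg j).1).take m)])
        (fun j hj => by
          have hlt : (c.seg j).1 < (c.seg j).2.length := by
            by_contra h
            apply hj
            simp only [dif]
            rw [List.take_of_length_le (not_lt.1 h), sub_self]
          have hk : k₀ < (c.seg j).2.length := by
            by_contra h
            apply hj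
            simp only [dif, ev_P]
            have e1 := ev_take_of_P_eq_zero hw0 ((c.seg j).2.take m)
            have e2 := ev_take_of_P_eq_zero hw0 (((c.seg j).2.take (c.seg j).1).take m)
            rw [List.take_of_length_le (by simp only [List.length_take]; omega)] at e1 e2
            rw [e1, e2, sub_self]
          have hlm : (c.seg j).1 < m := by
            by_contra h
            apply hj
            simp only [dif, ev_P, List.take_take]
            rw [min_eq_left (not_lt.1 h), sub_self]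
          refine ⟨?_, hlt⟩
          by_cases hij : i = j
          · rw [← hij]; exact hi1
          · rcases c.compat hij with h | h | h
            · omega
            · omega
            · rw [← h.1]; exact hi1)
      refine h1.trans ?_
      rw [← hC]
      have e : 2 * (ρ / (2 * (C + 1))) = ρ / (C + 1) := by field_simp
      rw [e, div_pow, ← mul_div_assoc, div_le_iff₀ (by positivity)]
      have : C ≤ (C + 1) ^ 2 := by nlinarith
      nlinarith [sq_nonneg ρ]
    have e : x + z = u + P m w + ((x - (y + w)) + (y - u) + (w - P m w) + z) := by abel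
    have h1 : ‖(x - (y + w)) + (y - u) + (w - P m w) + z‖ ≤ 4 * ρ := by
      refine (norm_add_le _ _).trans ?_
      have := norm_add₃_le (a := x - (y + w)) (b := y - u) (c := w - P m w)
      linarith
    rw [e, map_add, map_add]
    refine norm_add₃_le.trans ?_
    have h2 := norm_T_le c u
    have h3 := norm_T_le c ((x - (y + w)) + (y - u) + (w - P m w) + z)
    linarith
  · push Not at hB
    have horth : inner ℝ (T c u) (T c z) = 0 := by
      rw [PiLp.inner_apply]
      refine Finset.sum_eq_zero fun i _ => ?_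
      by_cases hi : (c.seg i).1 ≤ k₀
      · have h1 : T c z i = 0 := by
          rw [T_apply]
          simp only [dif]
          have e1 := ev_take_of_P_eq_zero hz0 (c.seg i).2
          have e2 := ev_take_of_P_eq_zero hz0 ((c.seg i).2.take (c.seg i).1)
          have := hB i hi
          rw [List.take_of_length_le (by first | exact this | (simp only [List.length_take]; omega))]
            at e1 e2
          rw [e1, e2, sub_self]
        rw [h1, inner_zero_right]
      · have h1 : T c u i = 0 := by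
          rw [T_apply]
          simp only [dif, hu, ev_P, List.take_take]
          rw [min_eq_left (not_le.1 hi).le, sub_self]
        rw [h1, inner_zero_left]
    have h1 : inner ℝ (T c x) (T c z) ≤ (η + 2 * ρ) * ‖z‖ := by
      have e : T c x = T c (x - u) + T c u := by rw [map_sub]; abel
      rw [e, inner_add_left, horth, add_zero]
      refine (real_inner_le_norm _ _).trans ?_
      have h2 : ‖x - u‖ ≤ η + 2 * ρ := by
        have e2 : x - u = (x - (y + w)) + (y - u) + w := by abel
        rw [e2]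
        refine norm_add₃_le.trans ?_
        linarith
      have h3 := (norm_T_le c (x - u)).trans h2
      have h4 := norm_T_le c z
      gcongr
    refine le_of_sq_le_sq ?_ (by positivity) |> fun h => h
    rw [map_add, norm_add_sq_real]
    have h2 : ‖T c x‖ ^ 2 ≤ ‖x‖ ^ 2 := pow_le_pow_left₀ (norm_nonneg _) (norm_T_le c x) 2
    have h3 : ‖T c z‖ ^ 2 ≤ ρ * ‖z‖ := by
      have := norm_T_le c z
      nlinarith [norm_nonneg (T c z), norm_nonneg z]
    have h4 : 2 * η + 5 * ρ ≤ 2 * ε * ‖x‖ := by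
      have h6 : a / 2 ≤ ‖x‖ := by linarith
      have h7 : ε * (a / 2) ≤ ε * ‖x‖ := mul_le_mul_of_nonneg_left h6 hε.le
      linarith
    have h5 : (2 * η + 5 * ρ) * ‖z‖ ≤ 2 * ε * ‖x‖ * ‖z‖ := by gcongr
    have h6 : (‖x‖ + ε * ‖z‖) ^ 2 = ‖x‖ ^ 2 + 2 * ε * ‖x‖ * ‖z‖ + (ε * ‖z‖) ^ 2 := by ring
    rw [h6]
    linarith [sq_nonneg (ε * ‖z‖)]

theorem somewhere_differentiable (Y : Submodule ℝ X) (hcl : IsClosed (Y : Set X)) (hY0 : Y ≠ ⊥) :
    ∃ y : Y, DifferentiableAt ℝ (fun z : Y => ‖z‖) y := by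
  have : CompleteSpace Y := hcl.completeSpace_coe
  have : Nontrivial Y := Submodule.nontrivial_iff_ne_bot.2 hY0
  refine exists_differentiableAt fun y hy r hr ε hε => ?_
  by_cases hY : FiniteDimensional ℝ Y
  · obtain ⟨H, hH, _, hnet⟩ := exists_net (ContinuousLinearMap.id ℝ Y) hε
    refine ⟨y, by simpa using hr.le, 1, one_pos, H, hH, fun h hh => ?_⟩
    obtain ⟨h', hh', hd⟩ := hnet h hh
    refine ⟨h', hh', fun x _ τ _ => ?_⟩
    have e : x + τ • h = (x + τ • h') + τ • (h - h') := by rw [smul_sub]; abel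
    rw [e]
    refine (norm_add_le _ _).trans ?_
    rw [norm_smul, Real.norm_eq_abs, mul_comm ε]
    gcongr
    exact hd
  · obtain ⟨y', hy'Y, hy', ρ, hρ, m, hloc⟩ := local_flat Y hY y.2
      (fun h => hy (Subtype.ext h)) hr (ε := ε / 3) (by positivity)
    obtain ⟨H, hH, hH1, hnet⟩ := exists_net ((R m).comp Y.subtypeL)
      (ε := ε / 3 / (‖J m‖ + 1)) (by positivity)
    refine ⟨⟨y', hy'Y⟩, hy', ρ / 2, by positivity, H, hH, fun h hh => ?_⟩
    obtain ⟨h', hh', hd⟩ := hnet h hh
    refine ⟨h', hh', fun x hx τ hτ => ?_⟩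
    set d : X := (h : X) - (h' : X) with hdd
    have hd1 : ‖P m d‖ ≤ ε / 3 := by
      have h1 : ‖P m d‖ ≤ ‖J m‖ * ‖R m d‖ := (J m).le_opNorm _
      have h2 : ‖R m d‖ ≤ ε / 3 / (‖J m‖ + 1) := hd
      calc ‖P m d‖ ≤ ‖J m‖ * (ε / 3 / (‖J m‖ + 1)) := h1.trans (by gcongr)
        _ ≤ (‖J m‖ + 1) * (ε / 3 / (‖J m‖ + 1)) := by gcongr; linarith
        _ = ε / 3 := by field_simp
    have hh1 : ‖(h : X)‖ ≤ 1 := hh
    have hh2 : ‖(h' : X)‖ ≤ 1 := hH1 h' hh'
    have hd2 : ‖d - P m d‖ ≤ 2 := (norm_Q_le m d).trans ((norm_sub_le _ _).trans (by linarith))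
    have hz : ‖τ • (d - P m d)‖ ≤ |τ| * 2 := by
      rw [norm_smul, Real.norm_eq_abs]; gcongr
    have h1 := hloc ((x : X) + τ • (h' : X)) (τ • (d - P m d)) (by
      have e : (x : X) + τ • (h' : X) - y' = ((x : X) - y') + τ • (h' : X) := by abel
      rw [e]
      refine (norm_add_le _ _).trans ?_
      have hx' : ‖(x : X) - y'‖ ≤ ρ / 2 := hx
      rw [norm_smul, Real.norm_eq_abs]
      nlinarith [abs_nonneg τ, norm_nonneg (h' : X)])
      (by rw [map_smul, map_sub, P_P, min_self, sub_self, smul_zero]) (by linarith)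
    change ‖(x : X) + τ • (h : X)‖ ≤ ‖(x : X) + τ • (h' : X)‖ + ε * |τ|
    have e : (x : X) + τ • (h : X) = ((x : X) + τ • (h' : X) + τ • (d - P m d)) + τ • P m d := by
      rw [hdd, smul_sub, smul_sub]; abel
    rw [e]
    refine (norm_add_le _ _).trans ?_
    have h2 : ‖τ • P m d‖ ≤ |τ| * (ε / 3) := by
      rw [norm_smul, Real.norm_eq_abs]; gcongr
    have h3 : ε / 3 * ‖τ • (d - P m d)‖ ≤ ε / 3 * (|τ| * 2) := by gcongr
    nlinarith

end Pool.Agent.P.MP_ae3328_an
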