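import Pool.Agent.P.MP_ae3328_an.Local
import Pool.Agent.P.MP_ae3328_an.Dual

/-!
Generic form: on every nonzero closed subspace of the synchronised James tree space the norm is
Frechet differentiable on a dense `Gδ` set.
-/

set_option autoImplicit false
set_option linter.dupNamespace false

namespace Pool.Agent.P.MP_ae3328_an

open Set Topology Filter

section Criterion

variable {E : Type} [NormedAddCommGroup E] [NormedSpace ℝ E]

/-- The Baire criterion, with a dense `Gδ` set of points of Frechet differentiability. -/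
theorem exists_dense_gdelta [CompleteSpace E] [Nontrivial E]
    (hloc : ∀ y : E, y ≠ 0 → ∀ r : ℝ, 0 < r → ∀ ε : ℝ, 0 < ε →
      ∃ y' : E, ‖y' - y‖ ≤ r ∧ ∃ ρ : ℝ, 0 < ρ ∧ ∃ H : Set E, H.Finite ∧
        ∀ h : E, ‖h‖ ≤ 1 → ∃ h' ∈ H, ∀ x : E, ‖x - y'‖ ≤ ρ → ∀ τ : ℝ, |τ| ≤ ρ →
          ‖x + τ • h‖ ≤ ‖x + τ • h'‖ + ε * |τ|) :
    ∃ G : Set E, IsGδ G ∧ Dense G ∧ ∀ y ∈ G, DifferentiableAt ℝ (fun z : E => ‖z‖) y := by
  have hdense : ∀ ε : ℝ, 0 < ε → Dense (Gu ε : Set E) := by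
    intro ε hε
    rw [Metric.dense_iff]
    intro y0 r hr
    obtain ⟨y, hy1, hy2⟩ := (Metric.dense_iff.1 (dense_compl_singleton (0 : E))) y0 (r / 3)
      (by positivity)
    obtain ⟨y', hy', ρ, hρ, H, hH, hnet⟩ := hloc y hy2 (r / 3) (by positivity) (ε / 4)
      (by positivity)
    have hd : Dense (⋂ h ∈ H, Gd h (ε / 4)) :=
      dense_biInter_of_isOpen (fun h _ => isOpen_Gd h _) hH.countable
        (fun h _ => dense_Gd h (by positivity))
    obtain ⟨x, hx1, hx2⟩ := (Metric.dense_iff.1 hd) y' (min ρ (r / 3)) (by positivity)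
    rw [Metric.mem_ball, dist_eq_norm, lt_min_iff] at hx1
    rw [Metric.mem_ball, dist_eq_norm] at hy1
    refine ⟨x, ?_, ?_⟩
    · rw [Metric.mem_ball, dist_eq_norm]
      have : x - y0 = (x - y') + (y' - y) + (y - y0) := by abel
      rw [this]
      have := norm_add₃_le (a := x - y') (b := y' - y) (c := y - y0)
      linarith [hx1.2]
    · have hev : ∀ h ∈ H, ∀ᶠ δ in 𝓝[>] (0 : ℝ), sd x (δ • h) ≤ ε / 4 * δ := by
        intro h hh
        obtain ⟨δ0, hδ0, h1⟩ := (mem_iInter₂.1 hx2) h hh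
        filter_upwards [Ioo_mem_nhdsGT hδ0] with δ hδ
        have e : δ • h = (δ / δ0) • (δ0 • h) := by
          rw [smul_smul]; congr 1; field_simp
        have h2 := sd_smul_le x (δ0 • h) (θ := δ / δ0) (div_nonneg hδ.1.le hδ0.le)
          (by rw [div_le_one hδ0]; exact hδ.2.le)
        rw [← e] at h2
        calc sd x (δ • h) ≤ δ / δ0 * sd x (δ0 • h) := h2
          _ ≤ δ / δ0 * (ε / 4 * δ0) := by
              have : 0 ≤ δ / δ0 := div_nonneg hδ.1.le hδ0.le
              gcongr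
          _ = ε / 4 * δ := by field_simp
      have hall := (eventually_all_finite hH).2 hev
      obtain ⟨δ, hδ1, hδ2⟩ := (hall.and (Ioo_mem_nhdsGT hρ)).exists
      refine ⟨δ, hδ2.1, 3 * ε / 4, by linarith, fun h hh => ?_⟩
      obtain ⟨h', hh', hk⟩ := hnet h hh
      have e1 := hk x hx1.1.le δ (by rw [abs_of_pos hδ2.1]; exact hδ2.2.le)
      have e2 := hk x hx1.1.le (-δ) (by rw [abs_neg, abs_of_pos hδ2.1]; exact hδ2.2.le)
      rw [abs_neg, neg_smul, neg_smul, ← sub_eq_add_neg, ← sub_eq_add_neg] at e2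
      rw [abs_of_pos hδ2.1] at e1 e2
      have e3 := hδ1 h' hh'
      unfold sd at e3 ⊢
      linarith
  have hd : Dense (⋂ n : ℕ, (Gu (1 / ((n : ℝ) + 1)) : Set E)) :=
    dense_iInter_of_isOpen (fun n => isOpen_Gu _) (fun n => hdense _ (by positivity))
  exact ⟨_, IsGδ.iInter_of_isOpen (fun n => isOpen_Gu _), hd,
    fun y hy => differentiableAt_of_Gu (mem_iInter.1 hy)⟩

end Criterion

theorem generically_differentiable (Y : Submodule ℝ X) (hcl : IsClosed (Y : Set X)) (hY0 : Y ≠ ⊥) :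
    ∃ G : Set Y, IsGδ G ∧ Dense G ∧ ∀ y ∈ G, DifferentiableAt ℝ (fun z : Y => ‖z‖) y := by
  have : CompleteSpace Y := hcl.completeSpace_coe
  have : Nontrivial Y := Submodule.nontrivial_iff_ne_bot.2 hY0
  refine exists_dense_gdelta fun y hy r hr ε hε => ?_
  by_cases hY : FiniteDimensional ℝ Y
  · obtain ⟨H, hH, _, hnet⟩ := exists_net (ContinuousLinearMap.id ℝ Y) hε
    refine ⟨y, by simpa using hr.le, 1, one_pos, H, hH, fun h hh => ?_⟩
    obtain ⟨h', hh', hd⟩ := hnet h hh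
    refine ⟨h', hh', fun x _ τ _ => ?_⟩
    have e : x + τ • h = (x + τ • h') + τ • (h - h') := by rw [smul_sub]; abel
    rw [e]
    refine (norm_add_le _ _).trans ?_
    rw [norm_smul, Real.norm_eq_abs, mul_comm ε]
    gcongr
    exact hd
  · obtain ⟨y', hy'Y, hy', ρ, hρ, m, hloc⟩ := local_flat Y hY y.2
      (fun h => hy (Subtype.ext h)) hr (ε := ε / 3) (by positivity)
    obtain ⟨H, hH, hH1, hnet⟩ := exists_net ((R m).comp Y.subtypeL)
      (ε := ε / 3 / (‖J m‖ + 1)) (by positivity)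
    refine ⟨⟨y', hy'Y⟩, hy', ρ / 2, by positivity, H, hH, fun h hh => ?_⟩
    obtain ⟨h', hh', hd⟩ := hnet h hh
    refine ⟨h', hh', fun x hx τ hτ => ?_⟩
    set d : X := (h : X) - (h' : X) with hdd
    have hd1 : ‖P m d‖ ≤ ε / 3 := by
      have h1 : ‖P m d‖ ≤ ‖J m‖ * ‖R m d‖ := (J m).le_opNorm _
      have h2 : ‖R m d‖ ≤ ε / 3 / (‖J m‖ + 1) := hd
      calc ‖P m d‖ ≤ ‖J m‖ * (ε / 3 / (‖J m‖ + 1)) := h1.trans (by gcongr)
        _ ≤ (‖J m‖ + 1) * (ε / 3 / (‖J m‖ + 1)) := by gcongr; linarith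
        _ = ε / 3 := by field_simp
    have hh1 : ‖(h : X)‖ ≤ 1 := hh
    have hh2 : ‖(h' : X)‖ ≤ 1 := hH1 h' hh'
    have hd2 : ‖d - P m d‖ ≤ 2 := (norm_Q_le m d).trans ((norm_sub_le _ _).trans (by linarith))
    have hz : ‖τ • (d - P m d)‖ ≤ |τ| * 2 := by
      rw [norm_smul, Real.norm_eq_abs]; gcongr
    have h1 := hloc ((x : X) + τ • (h' : X)) (τ • (d - P m d)) (by
      have e : (x : X) + τ • (h' : X) - y' = ((x : X) - y') + τ • (h' : X) := by abel
      rw [e]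
      refine (norm_add_le _ _).trans ?_
      have hx' : ‖(x : X) - y'‖ ≤ ρ / 2 := hx
      rw [norm_smul, Real.norm_eq_abs]
      nlinarith [abs_nonneg τ, norm_nonneg (h' : X)])
      (by rw [map_smul, map_sub, P_P, min_self, sub_self, smul_zero]) (by linarith)
    change ‖(x : X) + τ • (h : X)‖ ≤ ‖(x : X) + τ • (h' : X)‖ + ε * |τ|
    have e : (x : X) + τ • (h : X) = ((x : X) + τ • (h' : X) + τ • (d - P m d)) + τ • P m d := by
      rw [hdd, smul_sub, smul_sub]; abel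
    rw [e]
    refine (norm_add_le _ _).trans ?_
    have h2 : ‖τ • P m d‖ ≤ |τ| * (ε / 3) := by
      rw [norm_smul, Real.norm_eq_abs]; gcongr
    have h3 : ε / 3 * ‖τ • (d - P m d)‖ ≤ ε / 3 * (|τ| * 2) := by gcongr
    nlinarith

end Pool.Agent.P.MP_ae3328_an
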