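import Pool.Agent.P.MP_ae3328_an.Basic

/-!
Every infinite-dimensional subspace of the synchronised James tree space contains far-out unit
vectors all of whose node values are small.
-/

set_option autoImplicit false
set_option linter.dupNamespace false

namespace Pool.Agent.P.MP_ae3328_an

open Set Topology Filter

theorem ev_take_of_P_eq_zero {a : ℕ} {x : X} (h : P a x = 0) (t : Nd) :
    ev (t.take a) x = 0 := by
  rw [← ev_P, h, map_zero]

theorem P_eq_zero_of_le {a b : ℕ} (hab : a ≤ b) {x : X} (h : P b x = 0) : P a x = 0 := by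
  have := P_P a b x
  rw [h, map_zero, min_eq_left hab] at this
  exact this.symm

/-- Few nodes on level `a` lie above a large value. -/
theorem few_nodes {δ : ℝ} (hδ : 0 < δ) : ∃ M : ℕ, ∀ (a : ℕ) (x : X), P a x = 0 → ‖x‖ ≤ 1 →
    ∃ s : ℕ → Nd, ∀ t, δ < |ev t x| → ∃ j < M, t.take a = s j := by
  classical
  obtain ⟨M, hM⟩ := exists_nat_ge (1 / δ ^ 2)
  refine ⟨M, fun a x hx hx1 => ?_⟩
  let A : Finset (Nm a) := Finset.univ.filter (fun s => ∃ t, δ < |ev t x| ∧ t.take a = s.1)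
  have hch : ∀ s : A, ∃ t, δ < |ev t x| ∧ t.take a = s.1.1 :=
    fun s => (Finset.mem_filter.1 s.2).2
  choose f hf using hch
  have h1 := sum_sq_le (ι := A) (fun s => (a, f s)) (fun i j hij => by
    right; right
    refine ⟨rfl, ?_⟩
    simp only
    rw [(hf i).2, (hf j).2]
    exact fun h => hij (Subtype.ext (Subtype.ext h))) x
  have h2 : (A.card : ℝ) * δ ^ 2 ≤ ∑ s : A, dif (fun t => ev t x) (a, f s) ^ 2 := by
    have := Finset.card_nsmul_le_sum (Finset.univ : Finset A)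
      (fun s => dif (fun t => ev t x) (a, f s) ^ 2) (δ ^ 2) (fun s _ => by
        simp only [dif, ev_take_of_P_eq_zero hx, sub_zero]
        rw [← sq_abs (ev _ x)]
        exact pow_le_pow_left₀ hδ.le (hf s).1.le 2)
    simpa using this
  have h3 : ‖x‖ ^ 2 ≤ 1 := by nlinarith [norm_nonneg x]
  have h4 : A.card ≤ M := by
    have : (A.card : ℝ) ≤ 1 / δ ^ 2 := by
      rw [le_div_iff₀ (by positivity)]; linarith
    exact_mod_cast this.trans hM
  refine ⟨fun j => (A.toList.map Subtype.val).getD j [], fun t ht => ?_⟩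
  have hmem : t.take a ∈ A.toList.map Subtype.val := by
    refine List.mem_map.2 ⟨tk a t, ?_, rfl⟩
    rw [Finset.mem_toList]
    exact Finset.mem_filter.2 ⟨Finset.mem_univ _, t, ht, rfl⟩
  obtain ⟨j, hj, hj'⟩ := List.mem_iff_getElem.1 hmem
  refine ⟨j, ?_, ?_⟩
  · have : j < A.card := by simpa using hj
    omega
  · change t.take a = (A.toList.map Subtype.val).getD j []
    rw [List.getD_eq_getElem _ _ hj, hj']

theorem exists_far (Y : Submodule ℝ X) (hY : ¬ FiniteDimensional ℝ Y) (a : ℕ) :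
    ∃ y ∈ Y, ‖y‖ = 1 ∧ P a y = 0 := by
  have h1 : ¬ Function.Injective ((R a).toLinearMap.comp Y.subtype) :=
    fun h => hY (FiniteDimensional.of_injective _ h)
  rw [← LinearMap.ker_eq_bot] at h1
  obtain ⟨y, hy, hy0⟩ := Submodule.exists_mem_ne_zero_of_ne_bot h1
  have hy1 : R a (y : X) = 0 := hy
  have hy2 : (y : X) ≠ 0 := fun h => hy0 (Subtype.ext h)
  have hpos : 0 < ‖(y : X)‖ := norm_pos_iff.2 hy2
  refine ⟨‖(y : X)‖⁻¹ • (y : X), Y.smul_mem _ y.2, ?_, ?_⟩
  · rw [norm_smul, norm_inv, norm_norm, inv_mul_cancel₀ hpos.ne']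
  · have : P a (y : X) = 0 := by
      change J a (R a y) = 0
      rw [hy1, map_zero]
    rw [map_smul, this, smul_zero]

theorem ultra_finite {α : Type} [Finite α] (U : Ultrafilter ℕ) (f : ℕ → α) :
    ∃ g, ∀ᶠ a in (U : Filter ℕ), f a = g := by
  obtain ⟨g, hg⟩ := Ultrafilter.eq_pure_of_finite (U.map f)
  refine ⟨g, ?_⟩
  have : {g} ∈ U.map f := by rw [hg]; simp
  exact this

theorem ultra_real (U : Ultrafilter ℕ) (f : ℕ → ℝ) (hf : ∀ a, |f a| ≤ 1) {δ : ℝ} (hδ : 0 < δ) :
    ∃ r : ℝ, |r| ≤ 1 ∧ ∀ᶠ a in (U : Filter ℕ), |f a - r| ≤ δ := by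
  have h1 : (U.map f : Filter ℝ) ≤ 𝓟 (Icc (-1) 1) := by
    rw [le_principal_iff]
    exact Filter.mem_map.2 (Eventually.of_forall fun a => abs_le.1 (hf a))
  obtain ⟨r, hr, hr'⟩ := isCompact_Icc.ultrafilter_le_nhds (U.map f) h1
  refine ⟨r, abs_le.2 hr, ?_⟩
  have h2 : Metric.closedBall r δ ∈ (U.map f : Filter ℝ) := hr' (Metric.closedBall_mem_nhds r hδ)
  filter_upwards [Filter.mem_map.1 h2] with a ha
  simpa [Real.dist_eq] using ha

theorem spread_aux (Y : Submodule ℝ X) (hY : ¬ FiniteDimensional ℝ Y) (k₀ N₀ : ℕ) :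
    ∃ w ∈ Y, P k₀ w = 0 ∧ (N₀ : ℝ) / 4 ≤ ‖w‖ ^ 2 ∧ ∀ t, |ev t w| ≤ 3 := by
  set δ : ℝ := 1 / (2 * (N₀ + 1)) with hδdef
  have hδ : 0 < δ := by positivity
  have hδN : (N₀ + 1) * δ = 1 / 2 := by rw [hδdef]; field_simp
  obtain ⟨M, hM⟩ := few_nodes hδ
  choose y hyY hy1 hy0 using exists_far Y hY
  choose s hs using fun a => hM a (y a) (hy0 a) (hy1 a).le
  have hb' : ∀ a, ∃ b, a ≤ b ∧ ‖y a - P b (y a)‖ ≤ δ := by
    intro a
    obtain ⟨m, hm⟩ := exists_tail_le (y a) hδ
    exact ⟨max a m, le_max_left _ _, (norm_Q_mono (le_max_right _ _) _).trans hm⟩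
  choose b hab hb using hb'
  let U : Ultrafilter ℕ := hyperfilter ℕ
  have hU : ∀ k, ∀ᶠ a in (U : Filter ℕ), k ≤ a := fun k =>
    Nat.hyperfilter_le_atTop (eventually_ge_atTop k)
  have hg' : ∀ j L : ℕ, ∃ g : Nd, ∀ᶠ a in (U : Filter ℕ), (s a j).take L = g := by
    intro j L
    obtain ⟨g, hg⟩ := ultra_finite U (fun a => tk L (s a j))
    exact ⟨g.1, hg.mono fun a ha => congrArg Subtype.val ha⟩
  choose g hg using hg'
  have hcoh : ∀ j L L', L ≤ L' → (g j L').take L = g j L := by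
    intro j L L' hL
    obtain ⟨a, h1, h2⟩ := ((hg j L).and (hg j L')).exists
    rw [← h1, ← h2, List.take_take, min_eq_left hL]
  choose r hr1 hr using fun j => ultra_real U (fun a => ev (g j (b a)) (y a))
    (fun a => (abs_ev_le _ _).trans (hy1 a).le) hδ
  have main : ∀ N : ℕ, N ≤ N₀ → ∃ w ∈ Y, ∃ B : ℕ, k₀ ≤ B ∧ ∃ c : ℝ, (c = 0 ∨ c = 1) ∧
      P k₀ w = 0 ∧ ‖w - P B w‖ ≤ N * δ ∧ (N : ℝ) / 4 ≤ ‖P B w‖ ^ 2 ∧
      (∀ t, |ev t w| ≤ 2 + 2 * N * δ) ∧
      ∀ j < M, ∀ t : Nd, t.take B = g j B → |ev t w - c * r j| ≤ 2 * N * δ := by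
    intro N
    induction N with
    | zero =>
      intro _
      refine ⟨0, Y.zero_mem, k₀, le_rfl, 0, Or.inl rfl, ?_⟩
      simp
    | succ N ih =>
      intro hN
      obtain ⟨w, hwY, B, hB, c, hc, hw0, hw1, hw2, hw3, hw4⟩ := ih (Nat.le_of_succ_le hN)
      have hN' : ((N : ℝ) + 1) * δ ≤ 1 / 2 := by
        rw [← hδN]
        have : (N : ℝ) + 1 ≤ N₀ := by exact_mod_cast hN
        gcongr
        linarith
      have e1 : ∀ᶠ a in (U : Filter ℕ), ∀ j ∈ Finset.range M, (s a j).take B = g j B :=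
        (Finset.eventually_all _).2 fun j _ => hg j B
      have e2 : ∀ᶠ a in (U : Filter ℕ), ∀ j ∈ Finset.range M,
          |ev (g j (b a)) (y a) - r j| ≤ δ :=
        (Finset.eventually_all _).2 fun j _ => hr j
      obtain ⟨a, ha1, ha2, ha3⟩ := ((hU B).and (e1.and e2)).exists
      have hBb : B ≤ b a := ha1.trans (hab a)
      have hPy : P B (y a) = 0 := P_eq_zero_of_le ha1 (hy0 a)
      refine ⟨y a - w, Y.sub_mem (hyY a) hwY, b a, hB.trans hBb, 1 - c,
        by rcases hc with h | h <;> simp [h], ?_, ?_, ?_, ?_, ?_⟩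
      · rw [map_sub, hw0, P_eq_zero_of_le hB hPy, sub_zero]
      · have h1 := norm_Q_mono hBb w
        have e : y a - w - P (b a) (y a - w) = (y a - P (b a) (y a)) - (w - P (b a) w) := by
          rw [map_sub]; abel
        rw [e]
        refine (norm_sub_le _ _).trans ?_
        push_cast
        linarith [hb a]
      · have h1 := pyth B (P (b a) (y a - w))
        rw [P_P, min_eq_left hBb, map_sub (P B), hPy, zero_sub, norm_neg] at h1
        have e : P (b a) (y a - w) - -P B w = y a - (y a - P (b a) (y a)) -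
            P (b a) (w - P B w) := by
          rw [map_sub, map_sub, P_P, min_eq_right hBb]; abel
        rw [e] at h1
        have h2 : 1 / 2 ≤ ‖y a - (y a - P (b a) (y a)) - P (b a) (w - P B w)‖ := by
          have h3 := norm_sub_norm_le (y a - (y a - P (b a) (y a))) (P (b a) (w - P B w))
          have h4 := norm_sub_norm_le (y a) (y a - P (b a) (y a))
          have h5 := norm_P_le (b a) (w - P B w)
          linarith [hb a, hy1 a]
        push_cast
        nlinarith
      · intro t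
        rw [map_sub]
        push_cast
        by_cases ht : δ < |ev t (y a)|
        · obtain ⟨j, hj, hj'⟩ := hs a t ht
          have h1 : t.take B = g j B := by
            rw [← ha2 j (Finset.mem_range.2 hj), ← hj', List.take_take, min_eq_left ha1]
          have h2 := hw4 j hj t h1
          have h3 : |c * r j| ≤ 1 := by
            rcases hc with h | h
            · simp [h]
            · simpa [h] using hr1 j
          have h4 : |ev t (y a)| ≤ 1 := (abs_ev_le _ _).trans (hy1 a).le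
          have h5 := abs_sub_abs_le_abs_sub (ev t w) (c * r j)
          have h6 := abs_sub (ev t (y a)) (ev t w)
          linarith
        · have h6 := abs_sub (ev t (y a)) (ev t w)
          have := hw3 t
          linarith
      · intro j hj t ht
        have h1 : t.take B = g j B := by
          rw [← hcoh j B (b a) hBb, ← ht, List.take_take, min_eq_left hBb]
        have h2 := hw4 j hj t h1
        have h3 := ha3 j (Finset.mem_range.2 hj)
        have h4 := (abs_ev_le t (y a - P (b a) (y a))).trans (hb a)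
        rw [map_sub, ev_P, ht] at h4
        rw [map_sub]
        push_cast
        rw [abs_le] at h2 h3 h4 ⊢
        constructor <;> nlinarith [h2.1, h2.2, h3.1, h3.2, h4.1, h4.2]
  obtain ⟨w, hwY, B, _, c, _, hw0, _, hw2, hw3, _⟩ := main N₀ le_rfl
  refine ⟨w, hwY, hw0, hw2.trans (pow_le_pow_left₀ (norm_nonneg _) (norm_P_le B w) 2),
    fun t => (hw3 t).trans ?_⟩
  nlinarith

/-- Spread vectors. -/
theorem exists_spread (Y : Submodule ℝ X) (hY : ¬ FiniteDimensional ℝ Y) (k₀ : ℕ) {η σ : ℝ}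
    (hη : 0 < η) (hσ : 0 < σ) :
    ∃ w ∈ Y, P k₀ w = 0 ∧ ‖w‖ = η ∧ ∀ t, |ev t w| ≤ σ := by
  obtain ⟨N, hN⟩ := exists_nat_gt (36 * η ^ 2 / σ ^ 2)
  obtain ⟨w, hwY, hw0, hw1, hw2⟩ := spread_aux Y hY k₀ N
  have h1 : (3 * η / σ) ^ 2 < ‖w‖ ^ 2 := by
    have : (3 * η / σ) ^ 2 = 36 * η ^ 2 / σ ^ 2 / 4 := by field_simp; ring
    linarith
  have h2 : 3 * η / σ < ‖w‖ := lt_of_pow_lt_pow_left₀ 2 (norm_nonneg _) h1
  have hpos : 0 < ‖w‖ := lt_trans (by positivity) h2
  refine ⟨(η / ‖w‖) • w, Y.smul_mem _ hwY, by rw [map_smul, hw0, smul_zero], ?_, fun t => ?_⟩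
  · rw [norm_smul, Real.norm_of_nonneg (by positivity)]
    field_simp
  · rw [map_smul, smul_eq_mul, abs_mul, abs_of_pos (by positivity)]
    rw [div_lt_iff₀ hσ] at h2
    calc η / ‖w‖ * |ev t w| ≤ η / ‖w‖ * 3 := by gcongr; exact hw2 t
      _ ≤ σ := by
        rw [div_mul_eq_mul_div, div_le_iff₀ hpos]
        linarith

end Pool.Agent.P.MP_ae3328_an
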